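import Pool.Agent.K3h78.RN.Eigen
import Pool.Agent.K3h85.BS.Main

/-!
# Motivic cohomology of the field of real numbers
-/

set_option autoImplicit false
set_option linter.unusedSectionVars false
set_option maxHeartbeats 400000

open CategoryTheory AlgebraicGeometry Opposite

namespace Pool.Agent.K3h78.RN

open Pool.Agent.K3h85.BS

/-- A theory with the formal properties of rational motivic cohomology listed in `MotivicTheory` and
with Galois descent: a class over a finite Galois extension of a field of characteristic zero which is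
invariant under the Galois group comes from the field. -/
structure DescentTheory extends MotivicTheory where
  descent : ∀ (k j : ℤ) (F F' : Type) [Field F] [CharZero F] [Field F'] [Algebra F F']
    [FiniteDimensional F F'] [IsGalois F F'] (α : overRing (H k j) F'),
    (∀ σ : F' ≃ₐ[F] F', mapRing (H k j) (σ : F' →+* F') α = α) →
      ∃ β : overRing (H k j) F, mapRing (H k j) (algebraMap F F') β = α

/-- The functor `A ↦ F(Spec A)` on commutative rings. -/
noncomputable def onRings (F : Scheme.{0}ᵒᵖ ⥤ ModuleCat.{0} ℚ) :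
    CommRingCat.{0} ⥤ ModuleCat.{0} ℚ :=
  Scheme.Spec.rightOp ⋙ F

lemma restr_onRings (K : Type) [CommRing K] (F : Scheme.{0}ᵒᵖ ⥤ ModuleCat.{0} ℚ) :
    restr K (onRings F) = onAlgebras K F := rfl

lemma mr_onRings (F : Scheme.{0}ᵒᵖ ⥤ ModuleCat.{0} ℚ) {A B : Type} [CommRing A] [CommRing B]
    (f : A →+* B) (a : overRing F A) : mr (onRings F) f a = mapRing F f a := rfl

/-- The classes over `ℂ` which are fixed by complex conjugation. -/
def fixedClasses (F : Scheme.{0}ᵒᵖ ⥤ ModuleCat.{0} ℚ) : Set (overRing F ℂ) :=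
  {α | mapRing F (starRingEnd ℂ) α = α}

/-- The classes over `ℂ` which are mapped to their negative by complex conjugation. -/
def negatedClasses (F : Scheme.{0}ᵒᵖ ⥤ ModuleCat.{0} ℚ) : Set (overRing F ℂ) :=
  {α | mapRing F (starRingEnd ℂ) α = -α}

lemma eigen_one (F : Scheme.{0}ᵒᵖ ⥤ ModuleCat.{0} ℚ) : eigen (onRings F) 1 = fixedClasses F := by
  refine Set.ext fun (α : overRing F ℂ) => ?_
  change mapRing F (starRingEnd ℂ) α = (1 : ℚ) • α ↔ mapRing F (starRingEnd ℂ) α = α
  rw [one_smul]

lemma eigen_neg (F : Scheme.{0}ᵒᵖ ⥤ ModuleCat.{0} ℚ) :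
    eigen (onRings F) (-1) = negatedClasses F := by
  refine Set.ext fun (α : overRing F ℂ) => ?_
  change mapRing F (starRingEnd ℂ) α = (-1 : ℚ) • α ↔ mapRing F (starRingEnd ℂ) α = -α
  rw [neg_smul, one_smul]

lemma isGalois_complex : IsGalois ℝ ℂ := by
  have h1 : IsAlgClosure ℝ ℂ := ⟨inferInstance, Algebra.IsAlgebraic.of_finite ℝ ℂ⟩
  have h2 : Normal ℝ ℂ := IsAlgClosure.normal ℝ ℂ
  exact ⟨⟩

namespace DescentTheory

variable (T : DescentTheory)

lemma exists_real (k j : ℤ) (α : overRing (T.H k j) ℂ) (hα : α ∈ fixedClasses (T.H k j)) :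
    ∃ β : overRing (T.H k j) ℝ, mapRing (T.H k j) (algebraMap ℝ ℂ) β = α := by
  have := isGalois_complex
  refine T.descent k j ℝ ℂ α fun σ => ?_
  rcases Complex.real_algHom_eq_id_or_conj (σ : ℂ →ₐ[ℝ] ℂ) with h | h
  · have h1 : (σ : ℂ →+* ℂ) = RingHom.id ℂ := by
      refine RingHom.ext fun z => ?_
      exact congrArg (fun f : ℂ →ₐ[ℝ] ℂ => f z) h
    rw [h1, ← mr_onRings, mr_id]
  · have h1 : (σ : ℂ →+* ℂ) = starRingEnd ℂ := by
      refine RingHom.ext fun z => ?_
      exact congrArg (fun f : ℂ →ₐ[ℝ] ℂ => f z) h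
    rw [h1]
    exact hα

lemma card_fixed (k j : ℤ)
    (h : Cardinal.mk (overRing (T.H k j) ℝ) < Cardinal.continuum) :
    Cardinal.mk (fixedClasses (T.H k j)) < Cardinal.continuum := by
  choose f hf using fun α : fixedClasses (T.H k j) => T.exists_real k j α α.2
  have h1 : Function.Injective f := by
    intro a b hab
    apply Subtype.ext
    rw [← hf a, ← hf b, hab]
  exact (Cardinal.mk_le_of_injective h1).trans_lt h

/-- The groups of degree `-1` of `ℂ` vanish if one of the eigenspaces of complex conjugation is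
small. -/
lemma complex_vanishes (k j : ℤ) (h0 : Subsingleton (overRing (T.H k j) (AlgebraicClosure ℚ)))
    (h : Cardinal.mk (fixedClasses (T.H k j)) < Cardinal.continuum ∨
      Cardinal.mk (negatedClasses (T.H k j)) < Cardinal.continuum) :
    Subsingleton (overRing (T.H k j) ℂ) := by
  refine subsingleton_of_forall_eq 0 fun α => ?_
  obtain ⟨i⟩ := exists_hom_closure ℚ
  let _ : Algebra (AlgebraicClosure ℚ) ℂ := i.toAlgebra
  have hα : (α : ov (onRings (T.H k j)) ℂ) ∈
      base (restr (AlgebraicClosure ℚ) (onRings (T.H k j))) ℂ := by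
    rcases h with h | h
    · exact mem_base_of_few (onRings (T.H k j)) (AlgebraicClosure ℚ)
        (card_closure ℚ (le_of_eq Cardinal.mkRat)) conj_closure
        (T.continuity k j (AlgebraicClosure ℚ) ℂ) 1 (by norm_num) (by rwa [eigen_one]) α
    · exact mem_base_of_few (onRings (T.H k j)) (AlgebraicClosure ℚ)
        (card_closure ℚ (le_of_eq Cardinal.mkRat)) conj_closure
        (T.continuity k j (AlgebraicClosure ℚ) ℂ) (-1) (by norm_num) (by rwa [eigen_neg]) α
  obtain ⟨β, rfl⟩ := hα
  have h2 : β = 0 := @Subsingleton.elim _ h0 β 0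
  rw [h2, map_zero]
  rfl

end DescentTheory

end Pool.Agent.K3h78.RN
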