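import Pool.Agent.K3h78.RN.Inv

/-!
# A transcendence basis of `ℂ` which is adapted to complex conjugation
-/

set_option autoImplicit false
set_option linter.unusedSectionVars false
set_option maxHeartbeats 400000

open MvPolynomial

namespace Pool.Agent.K3h78.RN

open Pool.Agent.K3h85.BS

/-- `I` is in each algebraically closed subfield -/
lemma exists_I (K : Type) [Field K] [IsAlgClosed K] [Algebra K ℂ] :
    ∃ i : K, algebraMap K ℂ i = Complex.I := by
  obtain ⟨i, hi⟩ := IsAlgClosed.exists_pow_nat_eq (-1 : K) (n := 2) (by norm_num)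
  have h1 : (algebraMap K ℂ i) ^ 2 = Complex.I ^ 2 := by
    rw [← map_pow, hi, map_neg, map_one, Complex.I_sq]
  rcases sq_eq_sq_iff_eq_or_eq_neg.1 h1 with h | h
  · exact ⟨i, h⟩
  · exact ⟨-i, by rw [map_neg, h, neg_neg]⟩

theorem exists_basis (K : Type) [Field K] [IsAlgClosed K] [Algebra K ℂ]
    (hK : Cardinal.mk K ≤ Cardinal.aleph0) :
    ∃ (ι : Type) (x : ι ⊕ ι → ℂ), Cardinal.mk ι = Cardinal.continuum ∧
      IsTranscendenceBasis K x ∧ ∀ i, (starRingEnd ℂ) (x (Sum.inl i)) = x (Sum.inr i) := by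
  obtain ⟨u, hu⟩ := exists_I K
  have hch : CharZero K := (algebraMap K ℂ).charZero
  let s : Set ℂ := Set.range ((↑) : ℝ → ℂ)
  have hs : Algebra.IsAlgebraic (Algebra.adjoin K s) ℂ := by
    constructor
    intro z
    have h1 : z ∈ Algebra.adjoin K s := by
      rw [← Complex.re_add_im z, ← hu]
      refine Subalgebra.add_mem _ (Algebra.subset_adjoin ⟨z.re, rfl⟩)
        (Subalgebra.mul_mem _ (Algebra.subset_adjoin ⟨z.im, rfl⟩) (Subalgebra.algebraMap_mem _ u))
    exact isAlgebraic_algebraMap (⟨z, h1⟩ : Algebra.adjoin K s)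
  obtain ⟨t, hts, ht⟩ := exists_isTranscendenceBasis_subset (R := K) s
  have h1 : Cardinal.mk ℂ = Cardinal.mk t :=
    IsAlgClosed.cardinal_eq_cardinal_transcendence_basis_of_aleph0_lt' _ ht hK
      (by rw [Cardinal.mk_complex]; exact Cardinal.aleph0_lt_continuum)
  rw [Cardinal.mk_complex] at h1
  have hinf : Cardinal.aleph0 ≤ Cardinal.mk t := by
    rw [← h1]
    exact Cardinal.aleph0_le_continuum
  obtain ⟨e⟩ : Nonempty (t ⊕ t ≃ t) := by
    rw [← Cardinal.eq, ← Cardinal.add_def, Cardinal.add_eq_self hinf]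
  let r : t ⊕ t → ℂ := fun y => ((e y : t) : ℂ)
  have hr : IsTranscendenceBasis K r := by
    rw [isTranscendenceBasis_iff_algebraicIndependent_isAlgebraic]
    refine ⟨ht.1.comp e e.injective, ?_⟩
    have h2 : Set.range r = Set.range ((↑) : t → ℂ) := by
      ext z
      constructor
      · rintro ⟨y, rfl⟩
        exact ⟨e y, rfl⟩
      · rintro ⟨y, rfl⟩
        exact ⟨e.symm y, by simp [r]⟩
    rw [h2]
    exact ht.isAlgebraic
  have hreal : ∀ y, (starRingEnd ℂ) (r y) = r y := by
    intro y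
    obtain ⟨a, ha⟩ := hts (e y).2
    change (starRingEnd ℂ) ((e y : t) : ℂ) = ((e y : t) : ℂ)
    rw [← ha]
    exact Complex.conj_ofReal a
  let x : t ⊕ t → ℂ := Sum.elim (fun i => r (Sum.inl i) + Complex.I * r (Sum.inr i))
    fun i => r (Sum.inl i) - Complex.I * r (Sum.inr i)
  let Φ : MvPolynomial (t ⊕ t) K →ₐ[K] MvPolynomial (t ⊕ t) K := aeval (Sum.elim
    (fun i => X (Sum.inl i) + C u * X (Sum.inr i)) fun i => X (Sum.inl i) - C u * X (Sum.inr i))
  let Ψ : MvPolynomial (t ⊕ t) K →ₐ[K] MvPolynomial (t ⊕ t) K := aeval (Sum.elim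
    (fun i => C (1 / 2) * (X (Sum.inl i) + X (Sum.inr i)))
    fun i => C (1 / (2 * u)) * (X (Sum.inl i) - X (Sum.inr i)))
  have hu0 : u ≠ 0 := by
    rintro rfl
    rw [map_zero] at hu
    exact Complex.I_ne_zero hu.symm
  have hC1 : (C (1 / 2 : K) : MvPolynomial (t ⊕ t) K) * 2 = 1 := by
    have h2 : (2 : MvPolynomial (t ⊕ t) K) = C 2 := (map_ofNat C 2).symm
    rw [h2, ← C_mul]
    have h3 : (1 / 2 : K) * 2 = 1 := by norm_num
    rw [h3, C_1]
  have hC2 : (C u : MvPolynomial (t ⊕ t) K) * C (1 / (2 * u)) = C (1 / 2) := by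
    rw [← C_mul]
    congr 1
    field_simp
  have hΨΦ : Ψ.comp Φ = AlgHom.id K _ := by
    apply MvPolynomial.algHom_ext
    rintro (i | i)
    · simp only [Φ, Ψ, AlgHom.comp_apply, aeval_X, Sum.elim_inl, Sum.elim_inr, map_add, map_mul,
        AlgHom.id_apply, algHom_C]
      rw [MvPolynomial.algebraMap_eq, ← mul_assoc, hC2]
      linear_combination (X (Sum.inl i)) * hC1
    · simp only [Φ, Ψ, AlgHom.comp_apply, aeval_X, Sum.elim_inl, Sum.elim_inr, map_sub, map_mul,
        AlgHom.id_apply, algHom_C]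
      rw [MvPolynomial.algebraMap_eq, ← mul_assoc, hC2]
      linear_combination (X (Sum.inr i)) * hC1
  have hΦ : Function.Injective Φ := by
    intro a b hab
    have h2 := congrArg Ψ hab
    rw [← AlgHom.comp_apply, ← AlgHom.comp_apply, hΨΦ] at h2
    exact h2
  have hcomp : (aeval x : MvPolynomial (t ⊕ t) K →ₐ[K] ℂ) = (aeval r).comp Φ := by
    apply MvPolynomial.algHom_ext
    rintro (i | i)
    · simp only [Φ, x, AlgHom.comp_apply, aeval_X, Sum.elim_inl, map_add, map_mul, algHom_C, hu]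
    · simp only [Φ, x, AlgHom.comp_apply, aeval_X, Sum.elim_inr, map_sub, map_mul, algHom_C, hu]
  have hind : AlgebraicIndependent K x := by
    rw [AlgebraicIndependent, hcomp]
    exact Function.Injective.comp (g := (aeval r : MvPolynomial (t ⊕ t) K →ₐ[K] ℂ)) hr.1 hΦ
  refine ⟨t, x, h1.symm, ?_, ?_⟩
  · rw [isTranscendenceBasis_iff_algebraicIndependent_isAlgebraic]
    refine ⟨hind, ⟨fun z => isAlgebraic_mono (k₁ := K) (k₂ := K) ?_ (hr.isAlgebraic.isAlgebraic z)⟩⟩
    have hx : ∀ y, x y ∈ Algebra.adjoin K (Set.range x) := fun y => Algebra.subset_adjoin ⟨y, rfl⟩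
    have h2 : Algebra.adjoin K (Set.range r) ≤ Algebra.adjoin K (Set.range x) := by
      refine Algebra.adjoin_le ?_
      rintro _ ⟨i | i, rfl⟩
      · have h3 : r (Sum.inl i) = algebraMap K ℂ (1 / 2) * (x (Sum.inl i) + x (Sum.inr i)) := by
          simp only [x, Sum.elim_inl, Sum.elim_inr, map_div₀, map_one, map_ofNat]
          ring
        rw [h3]
        exact Subalgebra.mul_mem _ (Subalgebra.algebraMap_mem _ _)
          (Subalgebra.add_mem _ (hx _) (hx _))
      · have h3 : r (Sum.inr i) = algebraMap K ℂ (1 / (2 * u)) *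
            (x (Sum.inl i) - x (Sum.inr i)) := by
          simp only [x, Sum.elim_inl, Sum.elim_inr, map_div₀, map_one, map_ofNat, map_mul, hu]
          have := Complex.I_ne_zero
          field_simp
          ring
        rw [h3]
        exact Subalgebra.mul_mem _ (Subalgebra.algebraMap_mem _ _)
          (Subalgebra.sub_mem _ (hx _) (hx _))
    exact fun z hz => h2 hz
  · intro i
    simp only [x, Sum.elim_inl, Sum.elim_inr, map_add, map_mul, hreal, Complex.conj_I]
    ring

end Pool.Agent.K3h78.RN
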