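import Pool.Agent.K3h78.RN.Basis

/-!
# The eigenspaces of complex conjugation
-/

set_option autoImplicit false
set_option linter.unusedSectionVars false
set_option maxHeartbeats 400000

open MvPolynomial CategoryTheory

namespace Pool.Agent.K3h78.RN

open Pool.Agent.K3h85.BS

universe w

/-- Complex conjugation preserves the algebraic closure of the rational numbers. -/
lemma conj_closure [Algebra (AlgebraicClosure ℚ) ℂ] (k : AlgebraicClosure ℚ) :
    ∃ k' : AlgebraicClosure ℚ, (starRingEnd ℂ) (algebraMap (AlgebraicClosure ℚ) ℂ k) =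
      algebraMap (AlgebraicClosure ℚ) ℂ k' := by
  have h1 : IsIntegral ℚ k := ((AlgebraicClosure.isAlgebraic ℚ).isAlgebraic k).isIntegral
  obtain ⟨p, hp, hpk⟩ := h1
  have h2 : (starRingEnd ℂ) (algebraMap (AlgebraicClosure ℚ) ℂ k) ∈
      (algebraMap (AlgebraicClosure ℚ) ℂ).range := by
    refine mem_range_of_monic (algebraMap (AlgebraicClosure ℚ) ℂ)
      (p := p.map (algebraMap ℚ (AlgebraicClosure ℚ))) (hp.map _) ?_
    rw [Polynomial.eval₂_map]
    have h3 : (algebraMap (AlgebraicClosure ℚ) ℂ).comp (algebraMap ℚ (AlgebraicClosure ℚ)) =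
        ((starRingEnd ℂ).comp (algebraMap (AlgebraicClosure ℚ) ℂ)).comp
          (algebraMap ℚ (AlgebraicClosure ℚ)) := Subsingleton.elim _ _
    rw [h3]
    have h4 := Polynomial.hom_eval₂ p (algebraMap ℚ (AlgebraicClosure ℚ))
      ((starRingEnd ℂ).comp (algebraMap (AlgebraicClosure ℚ) ℂ)) k
    rw [hpk, map_zero] at h4
    exact h4.symm
  obtain ⟨k', hk'⟩ := h2
  exact ⟨k', hk'.symm⟩

/-- **Both eigenspaces of complex conjugation are large.** Let `K` be a countable algebraically closed
subfield of `ℂ` which is preserved by complex conjugation, and `G` a functor from commutative rings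
to vector spaces over `ℚ` which is finitary on `ℂ / K`. If some class over `ℂ` does not come from `K`
then there are `2^ℵ₀` classes `β t` over `ℂ` which are invariant under complex conjugation (anti-invariant
for `e = -1`) and linearly independent modulo the classes which come from `K`. -/
theorem complex_eigen (G : CommRingCat.{0} ⥤ ModuleCat.{w} ℚ) (K : Type) [Field K] [IsAlgClosed K]
    [Algebra K ℂ] (hK : Cardinal.mk K ≤ Cardinal.aleph0)
    (hc : ∀ k : K, ∃ k' : K, (starRingEnd ℂ) (algebraMap K ℂ k) = algebraMap K ℂ k')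
    (hG : IsFinitary (restr K G) ℂ) {α : ov G ℂ} (hα : α ∉ base (restr K G) ℂ) (e : ℚ)
    (he : e * e = 1) :
    ∃ β : ℝ → ov G ℂ, (∀ t, mr G (starRingEnd ℂ) (β t) = e • β t) ∧
      LinearIndependent ℚ fun t => (base (restr K G) ℂ).mkQ (β t) := by
  obtain ⟨ι, x, hι, hx, hcx⟩ := exists_basis K hK
  have hinf : Infinite ι := by
    rw [Cardinal.infinite_iff, hι]
    exact Cardinal.aleph0_le_continuum
  obtain ⟨f⟩ : Nonempty (ℝ ≃ ι) := by
    rw [← Cardinal.eq, Cardinal.mk_real, hι]
  obtain ⟨τ, hτ⟩ := exists_eigen G hG hx (starRingAut : ℂ ≃+* ℂ) hc hcx hα e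
  refine ⟨fun t => mr G ((τ (f t) : ℂ ≃+* ℂ) : ℂ →+* ℂ) α +
        e • mr G (starRingEnd ℂ) (mr G ((τ (f t) : ℂ ≃+* ℂ) : ℂ →+* ℂ) α), fun t => ?_, ?_⟩
  · have h1 : ∀ γ : ov G ℂ, mr G (starRingEnd ℂ) (mr G (starRingEnd ℂ) γ) = γ := by
      intro γ
      rw [← mr_comp]
      have h2 : (starRingEnd ℂ).comp (starRingEnd ℂ) = RingHom.id ℂ := by
        ext z
        exact Complex.conj_conj z
      rw [h2, mr_id]
    rw [map_add, map_smul, h1, smul_add, smul_smul, he, one_smul, add_comm]
  · exact hτ.comp f f.injective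

/-- The classes over `ℂ` which are multiplied by `e` by complex conjugation. -/
def eigen (G : CommRingCat.{0} ⥤ ModuleCat.{w} ℚ) (e : ℚ) : Set (ov G ℂ) :=
  {β | mr G (starRingEnd ℂ) β = e • β}

/-- If one of the eigenspaces of complex conjugation has fewer than `2^ℵ₀` elements then all classes
come from `K`. -/
theorem mem_base_of_few (G : CommRingCat.{0} ⥤ ModuleCat.{0} ℚ) (K : Type) [Field K]
    [IsAlgClosed K] [Algebra K ℂ] (hK : Cardinal.mk K ≤ Cardinal.aleph0)
    (hc : ∀ k : K, ∃ k' : K, (starRingEnd ℂ) (algebraMap K ℂ k) = algebraMap K ℂ k')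
    (hG : IsFinitary (restr K G) ℂ) (e : ℚ) (he : e * e = 1)
    (hfew : Cardinal.mk (eigen G e) < Cardinal.continuum) (α : ov G ℂ) :
    α ∈ base (restr K G) ℂ := by
  by_contra hα
  obtain ⟨β, hβ, hli⟩ := complex_eigen G K hK hc hG hα e he
  have h1 : Function.Injective fun t : ℝ => (⟨β t, hβ t⟩ : eigen G e) := by
    intro s t hst
    exact hli.injective (congrArg (base (restr K G) ℂ).mkQ (congrArg Subtype.val hst))
  have h2 := Cardinal.mk_le_of_injective h1
  rw [Cardinal.mk_real] at h2
  exact absurd hfew (not_lt.2 h2)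

end Pool.Agent.K3h78.RN
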