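import Pool.Agent.K3h78.RN.Eigen
import Pool.Agent.K3h85.BS.GLin

/-!
# The homology of linear groups over the complex numbers
-/

set_option autoImplicit false
set_option linter.unusedSectionVars false
set_option maxHeartbeats 400000

open CategoryTheory Pool.Agent.Y483

namespace Pool.Agent.K3h78.RN

open Pool.Agent.K3h85.BS

/-- The functor `A ↦ GL_m(A)` on commutative rings. -/
def glRings (m : ℕ) : CommRingCat.{0} ⥤ GrpCat.{0} where
  obj A := GrpCat.of (GL (Fin m) A)
  map f := GrpCat.ofHom (Matrix.GeneralLinearGroup.map f.hom)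
  map_id A := by
    ext g i j
    rfl
  map_comp f g := by
    ext h i j
    rfl

/-- The restriction of a functor from commutative rings to groups to the algebras over `K`. -/
def restrGrp (K : Type) [CommRing K] (𝒢 : CommRingCat.{0} ⥤ GrpCat.{0}) :
    CommAlgCat.{0} K ⥤ GrpCat.{0} :=
  forget₂ (CommAlgCat.{0} K) CommRingCat.{0} ⋙ 𝒢

lemma restr_comp (K : Type) [CommRing K] (𝒢 : CommRingCat.{0} ⥤ GrpCat.{0}) (n : ℕ) :
    restr K (𝒢 ⋙ hq n) = restrGrp K 𝒢 ⋙ hq n := rfl

theorem isFinitaryGrp_glRings (K L : Type) [Field K] [CommRing L] [Algebra K L] (m : ℕ) :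
    IsFinitaryGrp (restrGrp K (glRings m)) L := by
  classical
  have hmap : ∀ (A : Subalgebra K L) (g : GL (Fin m) A),
      mapG (restrGrp K (glRings m)) A.val g =
        Matrix.GeneralLinearGroup.map (A.val : A →+* L) g := fun _ _ => rfl
  constructor
  · intro g
    change GL (Fin m) L at g
    let s : Finset L := (Finset.univ.image fun ij : Fin m × Fin m =>
      (g : Matrix (Fin m) (Fin m) L) ij.1 ij.2) ∪
      (Finset.univ.image fun ij : Fin m × Fin m =>
        ((g⁻¹ : GL (Fin m) L) : Matrix (Fin m) (Fin m) L) ij.1 ij.2)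
    let A : Subalgebra K L := Algebra.adjoin K (s : Set L)
    have hs : ∀ z ∈ s, z ∈ A := fun z hz => Algebra.subset_adjoin hz
    let M : Matrix (Fin m) (Fin m) A := fun i j =>
      ⟨(g : Matrix (Fin m) (Fin m) L) i j, hs _ (Finset.mem_union_left _
        (Finset.mem_image.2 ⟨(i, j), Finset.mem_univ _, rfl⟩))⟩
    let N : Matrix (Fin m) (Fin m) A := fun i j =>
      ⟨((g⁻¹ : GL (Fin m) L) : Matrix (Fin m) (Fin m) L) i j, hs _ (Finset.mem_union_right _
        (Finset.mem_image.2 ⟨(i, j), Finset.mem_univ _, rfl⟩))⟩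
    have hM : M.map (A.val : A →+* L) = (g : Matrix (Fin m) (Fin m) L) := rfl
    have hN : N.map (A.val : A →+* L) = ((g⁻¹ : GL (Fin m) L) : Matrix (Fin m) (Fin m) L) := rfl
    have hinj : Function.Injective fun X : Matrix (Fin m) (Fin m) A =>
        X.map (A.val : A →+* L) := Matrix.map_injective Subtype.val_injective
    have hMN : M * N = 1 := by
      apply hinj
      change (M * N).map (A.val : A →+* L) = (1 : Matrix (Fin m) (Fin m) A).map (A.val : A →+* L)
      rw [Matrix.map_mul, hM, hN, Matrix.map_one _ (map_zero _) (map_one _), ← Units.val_mul,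
        mul_inv_cancel, Units.val_one]
    have hNM : N * M = 1 := by
      apply hinj
      change (N * M).map (A.val : A →+* L) = (1 : Matrix (Fin m) (Fin m) A).map (A.val : A →+* L)
      rw [Matrix.map_mul, hM, hN, Matrix.map_one _ (map_zero _) (map_one _), ← Units.val_mul,
        inv_mul_cancel, Units.val_one]
    refine ⟨A, (⟨M, N, hMN, hNM⟩ : GL (Fin m) A), ⟨s, rfl⟩, ?_⟩
    rw [hmap]
    apply Units.ext
    exact hM
  · intro A g g' h
    rw [hmap, hmap] at h
    change GL (Fin m) A at g g'
    apply Units.ext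
    ext i j
    have h1 := congrArg (fun X : GL (Fin m) L => (X : Matrix (Fin m) (Fin m) L) i j) h
    exact h1

/-- A natural direct summand, on all commutative rings, of a functor whose restriction to the algebras
over `K` is finitary. -/
theorem isFinitary_restr_retract (K : Type) [CommRing K] {F H : CommRingCat.{0} ⥤ ModuleCat.{0} ℚ}
    (i : F ⟶ H) (r : H ⟶ F) (hir : i ≫ r = 𝟙 F) (L : Type) [CommRing L] [Algebra K L]
    (hH : IsFinitary (restr K H) L) : IsFinitary (restr K F) L := by
  have nat : ∀ {F H : CommRingCat.{0} ⥤ ModuleCat.{0} ℚ} (i : F ⟶ H) {A A' : Type} [CommRing A]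
      [Algebra K A] [CommRing A'] [Algebra K A'] (f : A →ₐ[K] A') (a : ov F A),
      i.app (CommRingCat.of A') (mapA (restr K F) f a) =
        mapA (restr K H) f (i.app (CommRingCat.of A) a) := by
    intro F H i A A' _ _ _ _ f a
    have h1 := congrArg (fun g => g.hom a) (i.naturality (CommRingCat.ofHom (f : A →+* A')))
    exact h1
  have ret : ∀ (A : Type) [CommRing A] (a : ov F A),
      r.app (CommRingCat.of A) (i.app (CommRingCat.of A) a) = a := by
    intro A _ a
    have h1 := congrArg (fun g : F ⟶ F => (g.app (CommRingCat.of A)).hom a) hir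
    exact h1
  constructor
  · intro α
    obtain ⟨A, b, hA, hb⟩ := hH.exists_rep (i.app (CommRingCat.of L) α)
    refine ⟨A, r.app (CommRingCat.of A) b, hA, ?_⟩
    have h1 := nat r A.val b
    refine h1.symm.trans ?_
    have h2 : mapA (restr K H) A.val b = i.app (CommRingCat.of L) α := hb
    rw [h2]
    exact ret L α
  · intro A a hA ha
    obtain ⟨B, hAB, hB, h1⟩ := hH.exists_zero A (i.app (CommRingCat.of A) a) hA (by
      have h2 := nat i A.val a
      rw [ha] at h2
      exact h2.symm.trans (map_zero (i.app (CommRingCat.of L)).hom))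
    refine ⟨B, hAB, hB, ?_⟩
    have h3 := nat i (Subalgebra.inclusion hAB) a
    have h4 : i.app (CommRingCat.of B) (mapA (restr K F) (Subalgebra.inclusion hAB) a) = 0 :=
      h3.trans h1
    have h5 := ret B (mapA (restr K F) (Subalgebra.inclusion hAB) a)
    rw [h4, map_zero] at h5
    exact h5.symm

end Pool.Agent.K3h78.RN
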