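import Pool.Agent.K3h78.RN.Supp

/-!
# Involutions which move the support of classes to disjoint supports
-/

set_option autoImplicit false
set_option linter.unusedSectionVars false
set_option maxHeartbeats 400000

open MvPolynomial CategoryTheory

namespace Pool.Agent.K3h78.RN

open Pool.Agent.K3h85.BS

universe u w

/-- `G(A)` -/
abbrev ov (G : CommRingCat.{u} ⥤ ModuleCat.{w} ℚ) (A : Type u) [CommRing A] : ModuleCat.{w} ℚ :=
  G.obj (CommRingCat.of A)

/-- The linear map `G(A) → G(B)` induced by a ring homomorphism `A → B`. -/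
def mr (G : CommRingCat.{u} ⥤ ModuleCat.{w} ℚ) {A B : Type u} [CommRing A] [CommRing B]
    (f : A →+* B) : ov G A →ₗ[ℚ] ov G B :=
  (G.map (CommRingCat.ofHom f)).hom

/-- The restriction of a functor on commutative rings to the algebras over `K`. -/
def restr (K : Type u) [CommRing K] (G : CommRingCat.{u} ⥤ ModuleCat.{w} ℚ) :
    CommAlgCat.{u} K ⥤ ModuleCat.{w} ℚ :=
  forget₂ (CommAlgCat.{u} K) CommRingCat.{u} ⋙ G

section

variable (G : CommRingCat.{u} ⥤ ModuleCat.{w} ℚ)

lemma mr_comp {A B C : Type u} [CommRing A] [CommRing B] [CommRing C] (f : A →+* B) (g : B →+* C)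
    (a : ov G A) : mr G (g.comp f) a = mr G g (mr G f a) := by
  simp only [mr, CommRingCat.ofHom_comp, Functor.map_comp, ModuleCat.hom_comp,
    LinearMap.comp_apply]

lemma mr_id {A : Type u} [CommRing A] (a : ov G A) : mr G (RingHom.id A) a = a := by
  simp only [mr, CommRingCat.ofHom_id]
  rw [CategoryTheory.Functor.map_id]
  rfl

lemma mapA_restr {K A B : Type u} [CommRing K] [CommRing A] [Algebra K A] [CommRing B]
    [Algebra K B] (f : A →ₐ[K] B) (a : ov G A) :
    mapA (restr K G) f a = mr G (f : A →+* B) a := rfl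

variable {K L : Type u} [Field K] [Field L] [Algebra K L]

/-- an automorphism which preserves `K` maps algebraic elements to algebraic elements -/
lemma isAlgebraic_semi (c : L ≃+* L) (hc : ∀ k : K, ∃ k' : K, c (algebraMap K L k) =
    algebraMap K L k') {s t : Set L} (h : ∀ z ∈ s, c z ∈ t) {b : L}
    (hb : IsAlgebraic (Algebra.adjoin K s) b) : IsAlgebraic (Algebra.adjoin K t) (c b) := by
  obtain ⟨p, hp, hpb⟩ := hb
  have hmem : ∀ z ∈ Algebra.adjoin K s, c z ∈ Algebra.adjoin K t := by
    intro z hz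
    induction hz using Algebra.adjoin_induction with
    | mem z hz => exact Algebra.subset_adjoin (h z hz)
    | algebraMap k =>
      obtain ⟨k', hk'⟩ := hc k
      rw [hk']
      exact Subalgebra.algebraMap_mem _ k'
    | add a b _ _ ha hb => rw [map_add]; exact Subalgebra.add_mem _ ha hb
    | mul a b _ _ ha hb => rw [map_mul]; exact Subalgebra.mul_mem _ ha hb
  let i : Algebra.adjoin K s →+* Algebra.adjoin K t :=
    { toFun := fun z => ⟨c z, hmem z z.2⟩
      map_one' := Subtype.ext (map_one c)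
      map_zero' := Subtype.ext (map_zero c)
      map_mul' := fun a b => Subtype.ext (map_mul c _ _)
      map_add' := fun a b => Subtype.ext (map_add c _ _) }
  have hi : Function.Injective i := by
    intro a b hab
    exact Subtype.ext (c.injective (congrArg Subtype.val hab))
  refine ⟨p.map i, (Polynomial.map_ne_zero_iff hi).2 hp, ?_⟩
  rw [Polynomial.aeval_def, Polynomial.eval₂_map]
  have h1 : (algebraMap (Algebra.adjoin K t) L).comp i =
      (c : L →+* L).comp (algebraMap (Algebra.adjoin K s) L) := rfl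
  rw [h1]
  have h2 := Polynomial.hom_eval₂ p (algebraMap (Algebra.adjoin K s) L) (c : L →+* L) b
  refine h2.symm.trans ?_
  rw [← Polynomial.aeval_def, hpb, map_zero]

/-- the transport of the support -/
lemma supp_map (c : L ≃+* L) (hc : ∀ k : K, ∃ k' : K, c (algebraMap K L k) = algebraMap K L k')
    {ι : Type*} {x : ι → L} {S T : Set ι} (h : ∀ s ∈ S, ∃ t ∈ T, c (x s) = x t)
    {α : ov G L} (hα : α ∈ supp (restr K G) x S) :
    mr G (c : L →+* L) α ∈ supp (restr K G) x T := by
  classical
  obtain ⟨A, a, hA, hAS, rfl⟩ := hα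
  obtain ⟨g, hg⟩ := id hA
  let A' : Subalgebra K L := Algebra.adjoin K ((g.image c : Finset L) : Set L)
  have hmem : ∀ b ∈ A, c b ∈ A' := by
    intro b hb
    rw [← hg] at hb
    induction hb using Algebra.adjoin_induction with
    | mem z hz => exact Algebra.subset_adjoin (Finset.mem_coe.2 (Finset.mem_image_of_mem _ hz))
    | algebraMap k =>
      obtain ⟨k', hk'⟩ := hc k
      rw [hk']
      exact Subalgebra.algebraMap_mem _ k'
    | add a b _ _ ha hb => rw [map_add]; exact Subalgebra.add_mem _ ha hb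
    | mul a b _ _ ha hb => rw [map_mul]; exact Subalgebra.mul_mem _ ha hb
  let f : A →+* A' :=
    { toFun := fun z => ⟨c z, hmem z z.2⟩
      map_one' := Subtype.ext (map_one c)
      map_zero' := Subtype.ext (map_zero c)
      map_mul' := fun a b => Subtype.ext (map_mul c _ _)
      map_add' := fun a b => Subtype.ext (map_add c _ _) }
  refine ⟨A', mr G f a, ⟨_, rfl⟩, ?_, ?_⟩
  · refine Algebra.adjoin_le fun b hb => ?_
    obtain ⟨z, hz, rfl⟩ := Finset.mem_image.1 (Finset.mem_coe.1 hb)
    refine isAlgebraic_semi c hc (s := x '' S) ?_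
      (hAS (by rw [← hg]; exact Algebra.subset_adjoin hz))
    rintro _ ⟨s, hs, rfl⟩
    obtain ⟨t, ht, h1⟩ := h s hs
    exact ⟨t, ht, h1.symm⟩
  · rw [mapA_restr, mapA_restr, ← mr_comp, ← mr_comp]
    rfl

/-- classes over `K` are mapped to such classes -/
lemma base_map (c : L ≃+* L) (hc : ∀ k : K, ∃ k' : K, c (algebraMap K L k) = algebraMap K L k')
    {α : ov G L} (hα : α ∈ base (restr K G) L) : mr G (c : L →+* L) α ∈ base (restr K G) L := by
  obtain ⟨β, rfl⟩ := hα
  choose k hk using hc
  let f : K →+* K :=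
    { toFun := k
      map_one' := (algebraMap K L).injective (by rw [← hk, map_one, map_one])
      map_zero' := (algebraMap K L).injective (by rw [← hk, map_zero, map_zero])
      map_mul' := fun a b => (algebraMap K L).injective (by
        rw [← hk, map_mul, map_mul, map_mul, hk, hk])
      map_add' := fun a b => (algebraMap K L).injective (by
        rw [← hk, map_add, map_add, map_add, hk, hk]) }
  refine ⟨mr G f β, ?_⟩
  rw [mapA_restr, mapA_restr, ← mr_comp, ← mr_comp]
  congr 2
  refine RingHom.ext fun a => ?_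
  exact (hk a).symm

end

/-- permutations which extend given injections of a finite set into its complement -/
lemma exists_perms' {κ J : Type u} (S : Finset κ) (f : (S × J) ↪ ((S : Set κ)ᶜ : Set κ)) :
    ∃ σ : J → Equiv.Perm κ, ∀ (j : J) (s : S), σ j s = f (s, j) := by
  classical
  have hfS : ∀ z, (f z : κ) ∉ S := fun z h => (f z).2 h
  -- the involutions
  let g : J → κ → κ := fun i y => if h : y ∈ S then f (⟨y, h⟩, i) else
    if h' : ∃ s : S, (f (s, i) : κ) = y then (h'.choose : κ) else y
  have hg1 : ∀ i (s : S), g i s = f (s, i) := fun i s => by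
    simp only [g]
    rw [dif_pos s.2]
  have hg2 : ∀ i (s : S), g i (f (s, i)) = s := fun i s => by
    have h : ∃ s' : S, (f (s', i) : κ) = f (s, i) := ⟨s, rfl⟩
    simp only [g]
    rw [dif_neg (hfS _), dif_pos h]
    have h1 := h.choose_spec
    have h2 := f.injective (Subtype.ext h1)
    exact congrArg Subtype.val (congrArg Prod.fst h2)
  have hg : ∀ i, Function.Involutive (g i) := by
    intro i y
    by_cases h : y ∈ S
    · have h1 := hg1 i ⟨y, h⟩
      simp only at h1
      rw [h1]
      exact hg2 i ⟨y, h⟩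
    · by_cases h' : ∃ s : S, (f (s, i) : κ) = y
      · obtain ⟨s, rfl⟩ := h'
        rw [hg2, hg1]
      · have h1 : g i y = y := by
          simp only [g]
          rw [dif_neg h, dif_neg h']
        rw [h1, h1]
  exact ⟨fun i => (hg i).toPerm, fun i s => hg1 i s⟩

/-- permutations of `ι ⊕ ι` which move a finite set to disjoint subsets of the first part -/
lemma exists_perms_left {ι : Type u} [Infinite ι] (S : Finset (ι ⊕ ι)) :
    ∃ (σ : ι → Equiv.Perm (ι ⊕ ι)) (T : ι → Set ι), (∀ i j, i ≠ j → Disjoint (T i) (T j)) ∧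
      ∀ i, ∀ s ∈ S, ∃ t ∈ T i, σ i s = Sum.inl t := by
  classical
  let Z : Set ι := {i | (Sum.inl i : ι ⊕ ι) ∉ S}
  obtain ⟨f⟩ : Nonempty ((S × ι) ↪ Z) := by
    rw [← Cardinal.le_def]
    have h0 : Zᶜ.Finite := by
      have h1 : Zᶜ = Sum.inl ⁻¹' ((S : Finset (ι ⊕ ι)) : Set (ι ⊕ ι)) := by
        ext i
        simp [Z]
      rw [h1]
      exact S.finite_toSet.preimage Sum.inl_injective.injOn
    have h1 : Cardinal.mk Z = Cardinal.mk ι := by
      have h2 := Cardinal.mk_compl_of_infinite Zᶜ
        ((Cardinal.lt_aleph0_iff_set_finite.2 h0).trans_le (Cardinal.aleph0_le_mk ι))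
      rwa [compl_compl] at h2
    rw [h1, Cardinal.mk_prod, Cardinal.lift_id, Cardinal.lift_id]
    refine (Cardinal.mul_le_max_of_aleph0_le_right (Cardinal.aleph0_le_mk ι)).trans ?_
    refine max_le ?_ le_rfl
    exact (Cardinal.lt_aleph0_of_finite _).le.trans (Cardinal.aleph0_le_mk ι)
  let f' : (S × ι) ↪ ((S : Set (ι ⊕ ι))ᶜ : Set (ι ⊕ ι)) :=
    ⟨fun z => ⟨Sum.inl (f z : ι), (f z).2⟩, fun z z' h => f.injective (Subtype.ext
      (Sum.inl_injective (congrArg Subtype.val h)))⟩
  obtain ⟨σ, hσ⟩ := exists_perms' S f'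
  refine ⟨σ, fun i => {t | ∃ s : S, (f (s, i) : ι) = t}, fun i j hij => ?_, fun i s hs => ?_⟩
  · rw [Set.disjoint_left]
    rintro _ ⟨s, rfl⟩ ⟨s', h⟩
    have h1 := f.injective (Subtype.ext h)
    exact hij (congrArg Prod.snd h1).symm
  · exact ⟨_, ⟨⟨s, hs⟩, rfl⟩, hσ i ⟨s, hs⟩⟩

section main

variable (G : CommRingCat.{u} ⥤ ModuleCat.{w} ℚ) {K L : Type u} [Field K] [IsAlgClosed K] [Field L]
  [IsAlgClosed L] [Algebra K L]

/-- **Both eigenspaces are large.** Let `c` be an automorphism of `L` which preserves `K` and maps the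
first half of a transcendence basis to the second half. For each class `α` over `L` which does not come
from `K` and each `e` in `ℚ` there are classes `α i` such that the classes `α i + e c(α i)`
are linearly independent modulo the classes which come from `K`. -/
theorem exists_eigen (hG : IsFinitary (restr K G) L) {ι : Type u} [Infinite ι] {x : ι ⊕ ι → L}
    (hx : IsTranscendenceBasis K x) (c : L ≃+* L)
    (hc : ∀ k : K, ∃ k' : K, c (algebraMap K L k) = algebraMap K L k')
    (hcx : ∀ i, c (x (Sum.inl i)) = x (Sum.inr i)) {α : ov G L} (hα : α ∉ base (restr K G) L)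
    (e : ℚ) :
    ∃ τ : ι → (L ≃ₐ[K] L), LinearIndependent ℚ fun i => (base (restr K G) L).mkQ
      (mr G ((τ i : L ≃+* L) : L →+* L) α +
        e • mr G (c : L →+* L) (mr G ((τ i : L ≃+* L) : L →+* L) α)) := by
  obtain ⟨S, hS⟩ := exists_supp hG hx α
  obtain ⟨σ, T, hT, hσ⟩ := exists_perms_left S
  choose τ hτ using fun i => exists_aut hx (σ i)
  have hK : ∀ i (k : K), ∃ k' : K, (τ i : L ≃+* L) (algebraMap K L k) = algebraMap K L k' :=
    fun i k => ⟨k, (τ i).commutes k⟩
  have hK' : ∀ i (k : K), ∃ k' : K, ((τ i).symm : L ≃+* L) (algebraMap K L k) = algebraMap K L k' :=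
    fun i k => ⟨k, (τ i).symm.commutes k⟩
  have h1 : ∀ i, mr G ((τ i : L ≃+* L) : L →+* L) α ∈ supp (restr K G) x (Sum.inl '' T i) := by
    intro i
    refine supp_map G (τ i : L ≃+* L) (hK i) (fun s hs => ?_) hS
    obtain ⟨t, ht, h2⟩ := hσ i s hs
    refine ⟨Sum.inl t, ⟨t, ht, rfl⟩, ?_⟩
    rw [← h2]
    exact hτ i s
  have h2 : ∀ i, mr G (c : L →+* L) (mr G ((τ i : L ≃+* L) : L →+* L) α) ∈
      supp (restr K G) x (Sum.inr '' T i) := by
    intro i
    refine supp_map G c hc ?_ (h1 i)
    rintro _ ⟨t, ht, rfl⟩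
    exact ⟨Sum.inr t, ⟨t, ht, rfl⟩, hcx t⟩
  have h3 : ∀ i, mr G ((τ i : L ≃+* L) : L →+* L) α ∉ base (restr K G) L := by
    intro i hi
    apply hα
    have h4 := base_map G ((τ i).symm : L ≃+* L) (hK' i) hi
    rw [← mr_comp] at h4
    have h5 : (((τ i).symm : L ≃+* L) : L →+* L).comp ((τ i : L ≃+* L) : L →+* L) =
        RingHom.id L := by
      ext z
      simp
    rwa [h5, mr_id] at h4
  refine ⟨τ, independent hG hx (S := fun i => Sum.inl '' T i ∪ Sum.inr '' T i) ?_ ?_ ?_⟩
  · intro i j hij
    rw [Set.disjoint_left]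
    rintro _ (⟨s, hs, rfl⟩ | ⟨s, hs, rfl⟩) (⟨t, ht, h⟩ | ⟨t, ht, h⟩)
    · exact Set.disjoint_left.1 (hT i j hij) hs (by rwa [← Sum.inl_injective h])
    · exact absurd h (by simp)
    · exact absurd h (by simp)
    · exact Set.disjoint_left.1 (hT i j hij) hs (by rwa [← Sum.inr_injective h])
  · intro i
    exact Submodule.add_mem _ (supp_mono _ Set.subset_union_left (h1 i))
      (Submodule.smul_mem _ _ (supp_mono _ Set.subset_union_right (h2 i)))
  · intro i hi
    refine h3 i (two_term hG hx (Sum.inr '' T i) (supp_mono _ ?_ (h1 i))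
      (Submodule.smul_mem _ e (h2 i)) hi)
    rintro _ ⟨s, hs, rfl⟩ ⟨t, ht, h⟩
    exact absurd h (by simp)

end main

end Pool.Agent.K3h78.RN
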