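import Pool.Agent.K3h85.BS.Ind

/-!
# Classes with disjoint supports in a transcendence basis
-/

set_option autoImplicit false
set_option linter.unusedSectionVars false
set_option maxHeartbeats 400000

open MvPolynomial CategoryTheory

namespace Pool.Agent.K3h78.RN

open Pool.Agent.K3h85.BS

universe u w

section

variable {K L : Type u} [Field K] [Field L] [Algebra K L]

/-- The elements of `L` which are algebraic over `K(x i, i ∈ S)`. -/
def algSub {ι : Type*} (x : ι → L) (S : Set ι) : Subalgebra K L where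
  carrier := {b | IsAlgebraic (Algebra.adjoin K (x '' S)) b}
  mul_mem' := fun ha hb => ha.mul hb
  add_mem' := fun ha hb => ha.add hb
  algebraMap_mem' := fun c => isAlgebraic_algebraMap (⟨algebraMap K L c,
      Subalgebra.algebraMap_mem _ c⟩ : Algebra.adjoin K (x '' S))

lemma mem_algSub {ι : Type*} {x : ι → L} {S : Set ι} {b : L} :
    b ∈ algSub (K := K) x S ↔ IsAlgebraic (Algebra.adjoin K (x '' S)) b := Iff.rfl

lemma algSub_mono {ι : Type*} {x : ι → L} {S T : Set ι} (h : S ⊆ T) :
    algSub (K := K) x S ≤ algSub (K := K) x T := fun _ hb =>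
  isAlgebraic_mono (Algebra.adjoin_mono (Set.image_mono h)) hb

variable (H : CommAlgCat.{u} K ⥤ ModuleCat.{w} ℚ)

/-- The classes over `L` which come from `K`. -/
noncomputable abbrev base (L : Type u) [Field L] [Algebra K L] :
    Submodule ℚ (H.obj (CommAlgCat.of K L)) :=
  LinearMap.range (mapA H (Algebra.ofId K L))

/-- The classes over `L` which come from a finitely generated algebra which is algebraic over
`K(x i, i ∈ S)`. -/
noncomputable def supp {ι : Type*} (x : ι → L) (S : Set ι) :
    Submodule ℚ (H.obj (CommAlgCat.of K L)) where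
  carrier := {α | ∃ (A : Subalgebra K L) (a : H.obj (CommAlgCat.of K A)), A.FG ∧
    A ≤ algSub x S ∧ mapA H A.val a = α}
  zero_mem' := ⟨⊥, 0, Subalgebra.fg_bot, bot_le, map_zero _⟩
  add_mem' := by
    rintro _ _ ⟨A, a, hA, hAS, rfl⟩ ⟨A', a', hA', hAS', rfl⟩
    refine ⟨A ⊔ A', mapA H (Subalgebra.inclusion le_sup_left) a +
      mapA H (Subalgebra.inclusion le_sup_right) a', hA.sup hA', sup_le hAS hAS', ?_⟩
    rw [map_add, ← mapA_comp, ← mapA_comp]
    rfl
  smul_mem' := by
    rintro c _ ⟨A, a, hA, hAS, rfl⟩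
    exact ⟨A, c • a, hA, hAS, map_smul _ _ _⟩

lemma supp_mono {ι : Type*} {x : ι → L} {S T : Set ι} (h : S ⊆ T) :
    supp H x S ≤ supp H x T := by
  rintro _ ⟨A, a, hA, hAS, rfl⟩
  exact ⟨A, a, hA, hAS.trans (algSub_mono h), rfl⟩

variable {H}

/-- each class has a finite support -/
lemma exists_supp (hH : IsFinitary H L) {ι : Type u} {x : ι → L} (hx : IsTranscendenceBasis K x)
    (α : H.obj (CommAlgCat.of K L)) : ∃ S : Finset ι, α ∈ supp H x (S : Set ι) := by
  obtain ⟨A, a, hA, rfl⟩ := hH.exists_rep α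
  obtain ⟨S, hS⟩ := exists_finset hx hA
  exact ⟨S, A, a, hA, hS, rfl⟩

variable [IsAlgClosed K] [IsAlgClosed L]

/-- **Two classes with disjoint supports.** If the sum of two classes with disjoint supports comes from
`K` then both come from `K`. -/
theorem two_term (hH : IsFinitary H L) {ι : Type u} {x : ι → L} (hx : IsTranscendenceBasis K x)
    (T : Set ι) {α α' : H.obj (CommAlgCat.of K L)} (hα : α ∈ supp H x Tᶜ)
    (hα' : α' ∈ supp H x T) (h : α + α' ∈ base H L) : α ∈ base H L := by
  obtain ⟨A, a, hA, hAT, rfl⟩ := hα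
  obtain ⟨A', a', hA', hAT', rfl⟩ := hα'
  obtain ⟨β, hβ⟩ := h
  let B₀ := A ⊔ A'
  have hB₀ : B₀.FG := hA.sup hA'
  let iA : A →ₐ[K] B₀ := Subalgebra.inclusion le_sup_left
  let iA' : A' →ₐ[K] B₀ := Subalgebra.inclusion le_sup_right
  obtain ⟨z, hz⟩ : ∃ z, z = mapA H iA a + mapA H iA' a' - mapA H (Algebra.ofId K B₀) β :=
    ⟨_, rfl⟩
  have hz0 : mapA H B₀.val z = 0 := by
    rw [hz, map_sub, map_add, ← mapA_comp, ← mapA_comp, ← mapA_comp, sub_eq_zero]
    have e1 : B₀.val.comp iA = A.val := rfl
    have e2 : B₀.val.comp iA' = A'.val := rfl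
    have e3 : B₀.val.comp (Algebra.ofId K B₀) = Algebra.ofId K L := Subsingleton.elim _ _
    rw [e1, e2, e3, hβ]
  obtain ⟨B, hB₀B, hB, hzB⟩ := hH.exists_zero B₀ z hB₀ hz0
  obtain ⟨P, hP1, hP2⟩ := exists_specialization hx T A' B hA' hB
    (le_trans le_sup_right hB₀B) fun b hb => hAT' hb
  have h2 := congrArg (mapA H P) hzB
  rw [← mapA_comp, map_zero, hz, map_sub, map_add, ← mapA_comp, ← mapA_comp, ← mapA_comp,
    sub_eq_zero] at h2
  have e1 : (P.comp (Subalgebra.inclusion hB₀B)).comp iA = A.val := by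
    ext b
    exact hP1 (Subalgebra.inclusion hB₀B (iA b)) (hAT b.2)
  have e3 : (P.comp (Subalgebra.inclusion hB₀B)).comp (Algebra.ofId K B₀) = Algebra.ofId K L :=
    Subsingleton.elim _ _
  have e2 : mapA H ((P.comp (Subalgebra.inclusion hB₀B)).comp iA') a' ∈ base H L := by
    have h5 : ∀ b : A', ((P.comp (Subalgebra.inclusion hB₀B)).comp iA') b ∈
        (⊥ : Subalgebra K L) := by
      intro b
      have h6 := hP2 (Subalgebra.inclusion hB₀B (iA' b)) b.2
      exact Algebra.mem_bot.2 h6
    have h6 : (P.comp (Subalgebra.inclusion hB₀B)).comp iA' = (Algebra.ofId K L).comp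
        ((Algebra.botEquivOfInjective (algebraMap K L).injective : _ →ₐ[K] K).comp
          (((P.comp (Subalgebra.inclusion hB₀B)).comp iA').codRestrict ⊥ h5)) := by
      ext b
      obtain ⟨k, hk⟩ := Algebra.mem_bot.1 (h5 b)
      have h7 : ((P.comp (Subalgebra.inclusion hB₀B)).comp iA').codRestrict ⊥ h5 b =
          algebraMap K _ k := Subtype.ext hk.symm
      change _ = algebraMap K L ((Algebra.botEquivOfInjective (algebraMap K L).injective)
        (((P.comp (Subalgebra.inclusion hB₀B)).comp iA').codRestrict ⊥ h5 b))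
      rw [h7, AlgEquiv.commutes]
      exact hk.symm
    rw [h6, mapA_comp]
    exact ⟨_, rfl⟩
  rw [e1, e3] at h2
  rw [eq_sub_of_add_eq h2]
  exact (base H L).sub_mem ⟨β, rfl⟩ e2

/-- Classes with pairwise disjoint supports which do not come from `K` are linearly independent
modulo the classes which come from `K`. -/
theorem independent (hH : IsFinitary H L) {ι : Type u} {x : ι → L} (hx : IsTranscendenceBasis K x)
    {κ : Type*} {S : κ → Set ι} (hS : ∀ i j, i ≠ j → Disjoint (S i) (S j))
    {β : κ → H.obj (CommAlgCat.of K L)} (hβ : ∀ j, β j ∈ supp H x (S j))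
    (hn : ∀ j, β j ∉ base H L) :
    LinearIndependent ℚ fun j => (base H L).mkQ (β j) := by
  classical
  rw [linearIndependent_iff']
  intro s c hc j hj
  by_contra hne
  have h1 : c j • β j + ∑ i ∈ s.erase j, c i • β i ∈ base H L := by
    rw [Finset.add_sum_erase s (fun i => c i • β i) hj, ← Submodule.Quotient.mk_eq_zero,
      ← Submodule.mkQ_apply, map_sum]
    simpa only [map_smul] using hc
  have h2 : c j • β j ∈ base H L := by
    refine two_term hH hx (S j)ᶜ ?_ ?_ h1
    · rw [compl_compl]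
      exact Submodule.smul_mem _ _ (hβ j)
    · refine Submodule.sum_mem _ fun i hi => Submodule.smul_mem _ _ ?_
      refine supp_mono H ?_ (hβ i)
      exact (hS i j (Finset.ne_of_mem_erase hi)).subset_compl_right
  have h3 := (base H L).smul_mem (c j)⁻¹ h2
  rw [smul_smul, inv_mul_cancel₀ hne, one_smul] at h3
  exact hn j h3

end

end Pool.Agent.K3h78.RN
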